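import Pool.Agent.helper55.FPZ.SpecZ

set_option autoImplicit false

namespace Pool.Agent.FPZ

open Matrix Polynomial Pool.Agent.PL Pool.Agent.X4

theorem KD_ne (hTP : TP_stmt) {N m : ℕ} {K : Type} [Field K] {u : Matrix (Fin N) (Fin N) K}
    (hu : IsUnit u) {t : Tn N m K} (ht : t ≠ 0) : tp u m *ᵥ t ≠ 0 := by
  obtain ⟨w, hw⟩ := hu.exists_left_inv
  intro h
  apply ht
  have h1 := (hTP N m K w u).1
  rw [hw, (hTP N m K w u).2] at h1
  have h2 : (1 : Matrix (Fin m → Fin N) (Fin m → Fin N) K) *ᵥ t = 0 := by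
    rw [h1, ← Matrix.mulVec_mulVec, h, Matrix.mulVec_zero]
  rwa [Matrix.one_mulVec] at h2

theorem KD (hKC : KC_stmt) (hKB : KB_stmt) (hTP : TP_stmt) : KD_stmt := by
  intro F _ _ N E D hD T hT e hB G hG K _ _ τ c hc m y a hy hGI hW
  have hGu : IsUnit (G.map τ) := by
    have h := hG.1.map (RingHom.mapMatrix τ)
    rwa [RingHom.mapMatrix_apply] at h
  have hty : tu τ y ≠ 0 := by
    intro h
    apply hy
    funext I
    have h1 : τ (y I) = 0 := by
      have h2 := congrFun h I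
      exact h2
    rw [Pi.zero_apply]
    exact (map_eq_zero τ).1 h1
  have hu : tp (c * G.map τ) m *ᵥ tu τ y ≠ 0 := KD_ne hTP (hc.1.mul hGu) hty
  have hder := hKC F N E D hD T hT e hB G hG K τ c hc m y a hGI hW
  set u := tp (c * G.map τ) m *ᵥ tu τ y with hudef
  obtain ⟨I₀, hI₀⟩ := Function.ne_iff.1 hu
  rw [Pi.zero_apply] at hI₀
  by_cases hw : W0 (dz D G) a
  · have h0 : ∀ I, ∃ b, τ b = u I := fun I => (hKB K τ (u I)).1 fun δ => by
      obtain ⟨γ, hγ, hγ'⟩ := hder δ
      rw [hγ' I, hγ hw, zero_mul]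
    choose v hv using h0
    refine ⟨v, 1, ?_, one_ne_zero, ?_, fun _ => rfl⟩
    · intro h
      apply hI₀
      rw [← hv I₀, h, Pi.zero_apply, map_zero]
    · rw [one_smul]
      funext I
      exact (hv I).symm
  · have h0 : ∀ I, ∃ b, τ b = u I / u I₀ := fun I => (hKB K τ (u I / u I₀)).1 fun δ => by
      obtain ⟨γ, hγ, hγ'⟩ := hder δ
      rw [Derivation.leibniz_div, hγ' I, hγ' I₀]
      simp only [smul_eq_mul]
      ring
    choose v hv using h0
    refine ⟨v, u I₀, ?_, hI₀, ?_, fun h => absurd h hw⟩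
    · intro h
      have h1 := hv I₀
      rw [h, Pi.zero_apply, map_zero, div_self hI₀] at h1
      exact zero_ne_one h1
    · funext I
      rw [Pi.smul_apply, smul_eq_mul]
      change u I = u I₀ * τ (v I)
      rw [hv I, mul_div_cancel₀ _ hI₀]

end Pool.Agent.FPZ
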